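import Pool.Agent.Lib.MP_7682a8_an.KB.Iface

/-!
MP_7682a8_an, project KB, module TOP (helper31): injectivity of `q`, the values `q` and `1/q` are
disjoint and lie in an annulus.
-/

set_option autoImplicit false

open Metric Set MeasureTheory Filter
open scoped Topology

namespace Pool.Agent.Lib.MP_7682a8_an.KB.H31

open Pool.Agent.Lib.MP_7682a8_an.KB

/-- the punctured disc is connected -/
theorem preconn (m : ℝ) : IsPreconnected {w : ℂ | 0 < ‖w‖ ∧ ‖w‖ < m} := by
  have h1 : IsPreconnected (Ioo (0 : ℝ) m ×ˢ (univ : Set ℝ)) :=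
    isPreconnected_Ioo.prod isPreconnected_univ
  have h2 : ContinuousOn (fun p : ℝ × ℝ => (p.1 : ℂ) * Complex.exp (p.2 * Complex.I))
      (Ioo (0 : ℝ) m ×ˢ (univ : Set ℝ)) := by
    apply Continuous.continuousOn
    fun_prop
  have h3 := h1.image _ h2
  convert h3 using 1
  ext w
  constructor
  · rintro ⟨hw0, hwm⟩
    exact ⟨(‖w‖, Complex.arg w), ⟨⟨hw0, hwm⟩, mem_univ _⟩, Complex.norm_mul_exp_arg_mul_I w⟩
  · rintro ⟨⟨r, t⟩, ⟨⟨h0, hm⟩, -⟩, rfl⟩
    have h0' : 0 < r := h0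
    have hm' : r < m := hm
    simp only [mem_ofPred_eq, norm_mul, Complex.norm_real, Real.norm_eq_abs, abs_of_pos h0',
      Complex.norm_exp_ofReal_mul_I, mul_one]
    exact ⟨h0', hm'⟩

theorem wd_apply (p s v : ℂ) : wd p s v = p * v + s * starRingEnd ℂ v := by
  simp [wd]

/-- `wd p s` is onto if `|s| < |p|` -/
theorem wd_surj {p s : ℂ} (h : ‖s‖ < ‖p‖) : (wd p s).range = ⊤ := by
  have hinj : Function.Injective (wd p s : ℂ →ₗ[ℝ] ℂ) := by
    rw [injective_iff_map_eq_zero]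
    intro v hv
    have hv' : p * v + s * starRingEnd ℂ v = 0 := by
      rw [← wd_apply]
      exact hv
    have h1 : ‖p‖ * ‖v‖ = ‖s‖ * ‖v‖ := by
      have h2 : p * v = -(s * starRingEnd ℂ v) := eq_neg_of_add_eq_zero_left hv'
      have h3 := congrArg norm h2
      rw [norm_neg, norm_mul, norm_mul, RCLike.norm_conj] at h3
      exact h3
    by_contra hne
    have h4 : 0 < ‖v‖ := norm_pos_iff.mpr hne
    have h5 := mul_lt_mul_of_pos_right h h4
    linarith
  have hs := LinearMap.injective_iff_surjective.mp hinj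
  exact LinearMap.range_eq_top.mpr hs

theorem continuous_wd : Continuous (fun x : ℂ × ℂ => wd x.1 x.2) := by
  unfold wd
  fun_prop

theorem cont_wd_comp {P S : ℂ → ℂ} {z : ℂ} (hp : ContinuousAt P z) (hs : ContinuousAt S z) :
    ContinuousAt (fun y => wd (P y) (S y)) z := by
  have h1 : ContinuousAt (fun y => (P y, S y)) z := hp.prodMk hs
  have h2 : ContinuousAt (fun x : ℂ × ℂ => wd x.1 x.2) (P z, S z) := continuous_wd.continuousAt
  exact ContinuousAt.comp (f := fun y => (P y, S y)) (g := fun x : ℂ × ℂ => wd x.1 x.2) h2 h1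

/-- TOP. -/
theorem top (hQ : QdeStmt) (hC : ConStmt) : TopStmt := by
  intro h g δ ξ hom hbr
  obtain ⟨ca, cb, h1, h2, -, -⟩ := hC h g δ ξ hom hbr
  have q0 : qq ξ 0 = 0 := by simp [qq, hbr.zero]
  -- `f` is determined by `G ^ 2`
  have key : ∀ z ∈ ball (0 : ℂ) 1, ∀ z' ∈ ball (0 : ℂ) 1,
      Complex.exp (ξ z) ^ 2 = Complex.exp (ξ z') ^ 2 → z = z' := by
    intro z hz z' hz' he
    apply hom.inj hz hz'
    show h z + starRingEnd ℂ (g z) = h z' + starRingEnd ℂ (g z')
    rw [← hbr.exp z hz, ← hbr.exp z' hz']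
    have e1 : ∀ x : ℂ, Complex.exp (2 * x) = Complex.exp x ^ 2 := fun x => by
      rw [two_mul, Complex.exp_add, sq]
    rw [e1, e1, he]
  have inj : Set.InjOn (qq ξ) (ball (0 : ℂ) 1) := by
    intro z hz z' hz' he
    apply key z hz z' hz'
    have a1 := (h1 z hz).2
    have a2 := (h1 z' hz').2
    unfold qq at he
    rw [div_eq_div_iff a1 a2] at he
    have : Complex.exp (ξ z) = Complex.exp (ξ z') := by
      linear_combination (1 / 2) * he
    rw [this]
  have prod : ∀ z ∈ ball (0 : ℂ) 1, ∀ z' ∈ ball (0 : ℂ) 1, qq ξ z * qq ξ z' ≠ 1 := by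
    intro z hz z' hz' he
    have a1 := (h1 z hz).2
    have a2 := (h1 z' hz').2
    unfold qq at he
    rw [div_mul_div_comm, div_eq_one_iff_eq (mul_ne_zero a1 a2)] at he
    have e2 : Complex.exp (ξ z) = -Complex.exp (ξ z') := by
      linear_combination (-1 / 2) * he
    have e3 : z = z' := key z hz z' hz' (by rw [e2]; ring)
    rw [← e3] at e2
    have e4 : Complex.exp (ξ z) = 0 := by linear_combination (1 / 2) * e2
    exact Complex.exp_ne_zero _ e4
  refine ⟨inj, prod, ?_⟩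
  intro ε m hε hε1 hm hmin
  -- continuity of `q`
  have cq : ContinuousOn (qq ξ) (ball (0 : ℂ) 1) := by
    unfold qq
    exact (hbr.cont.cexp.sub continuousOn_const).div (hbr.cont.cexp.add continuousOn_const)
      fun z hz => (h1 z hz).2
  have hball : closedBall (0 : ℂ) ε ⊆ ball (0 : ℂ) 1 := closedBall_subset_ball hε1
  let U : Set ℂ := {z | 0 < ‖z‖ ∧ ‖z‖ < ε}
  have hUopen : IsOpen U :=
    (isOpen_lt continuous_const continuous_norm).inter (isOpen_lt continuous_norm continuous_const)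
  have hU1 : U ⊆ ball (0 : ℂ) 1 := by
    intro z hz
    rw [mem_ball_zero_iff]
    exact hz.2.trans hε1
  have hU0 : ∀ z ∈ U, z ≠ 0 := fun z hz => norm_pos_iff.mp hz.1
  -- the image of `U` is open
  have hopen : IsOpen (qq ξ '' U) := by
    rw [isOpen_iff_mem_nhds]
    rintro w ⟨z, hz, rfl⟩
    have hz1 := hU1 hz
    have hz0 := hU0 z hz
    have hpos : ball (0 : ℂ) 1 \ {0} ∈ 𝓝 z :=
      (isOpen_ball.sdiff isClosed_singleton).mem_nhds ⟨hz1, hz0⟩
    have hder : ∀ᶠ y in 𝓝 z, HasFDerivAt (qq ξ)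
        (wd (qq ξ y * aa h δ ξ y / y) (qq ξ y * bb g δ ξ y / starRingEnd ℂ y)) y := by
      filter_upwards [hpos] with y hy
      exact hQ h g δ ξ hom hbr y hy.1 hy.2
    have hcont : ContinuousAt (fun y => wd (qq ξ y * aa h δ ξ y / y)
        (qq ξ y * bb g δ ξ y / starRingEnd ℂ y)) z := by
      have c1 : ContinuousAt (qq ξ) z := cq.continuousAt (isOpen_ball.mem_nhds hz1)
      have c2 : ContinuousAt (aa h δ ξ) z := ca.continuousAt hpos
      have c3 : ContinuousAt (bb g δ ξ) z := cb.continuousAt hpos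
      have c4 : ContinuousAt (fun y : ℂ => starRingEnd ℂ y) z :=
        (RCLike.continuous_conj (K := ℂ)).continuousAt
      have hc0 : starRingEnd ℂ z ≠ 0 := by
        rwa [Ne, map_eq_zero]
      exact cont_wd_comp ((c1.mul c2).div continuousAt_id hz0) ((c1.mul c3).div c4 hc0)
    have hstrict := hasStrictFDerivAt_of_hasFDerivAt_of_continuousAt hder hcont
    have hlt : ‖qq ξ z * bb g δ ξ z / starRingEnd ℂ z‖ < ‖qq ξ z * aa h δ ξ z / z‖ := by
      obtain ⟨n1, n2⟩ := h2 z hz1 hz0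
      have hden : (δ : ℂ) * (Complex.exp (2 * ξ z) - 1) * Complex.exp (ξ z) ≠ 0 :=
        mul_ne_zero (mul_ne_zero (by exact_mod_cast hom.pos.ne') n1) (Complex.exp_ne_zero _)
      have hab : ‖bb g δ ξ z‖ < ‖aa h δ ξ z‖ := by
        unfold bb aa
        rw [norm_div, norm_div, RCLike.norm_conj, norm_mul, norm_mul z]
        exact div_lt_div_of_pos_right
          (mul_lt_mul_of_pos_left (hom.lt z hz1) (norm_pos_iff.mpr hz0)) (norm_pos_iff.mpr hden)
      rw [norm_div, norm_div, RCLike.norm_conj, norm_mul, norm_mul]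
      exact div_lt_div_of_pos_right (mul_lt_mul_of_pos_left hab (norm_pos_iff.mpr n2))
        (norm_pos_iff.mpr hz0)
    have hmap := hstrict.map_nhds_eq_of_surj (wd_surj hlt)
    rw [← hmap]
    exact image_mem_map (hUopen.mem_nhds hz)
  -- the punctured disc lies in the image
  have hT : {w : ℂ | 0 < ‖w‖ ∧ ‖w‖ < m} ⊆ qq ξ '' U := by
    refine (preconn m).subset_of_closure_inter_subset hopen ?_ ?_
    · have c0 : ContinuousAt (qq ξ) 0 := cq.continuousAt (isOpen_ball.mem_nhds (by simp))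
      have e1 : ∀ᶠ z in 𝓝 (0 : ℂ), ‖qq ξ z‖ < m := by
        have : Tendsto (fun z => ‖qq ξ z‖) (𝓝 0) (𝓝 ‖qq ξ 0‖) := c0.norm
        rw [q0, norm_zero] at this
        exact this.eventually_lt_const hm
      obtain ⟨r, hr, hr'⟩ := Metric.eventually_nhds_iff.mp e1
      obtain ⟨t, ht0, ht⟩ : ∃ t : ℝ, 0 < t ∧ t < min r ε := exists_between (lt_min hr hε)
      have hn : ‖(t : ℂ)‖ = t := by
        rw [Complex.norm_real, Real.norm_eq_abs, abs_of_pos ht0]
      have htU : (t : ℂ) ∈ U := ⟨by rw [hn]; exact ht0, by rw [hn]; exact ht.trans_le (min_le_right _ _)⟩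
      refine ⟨qq ξ t, ⟨?_, ?_⟩, ⟨t, htU, rfl⟩⟩
      · exact norm_pos_iff.mpr (h2 _ (hU1 htU) (hU0 _ htU)).2
      · apply hr'
        rw [dist_zero_right, hn]
        exact ht.trans_le (min_le_left _ _)
    · rintro w ⟨hw, hw0, hwm⟩
      have hcomp : IsClosed (qq ξ '' closedBall (0 : ℂ) ε) :=
        ((isCompact_closedBall (0 : ℂ) ε).image_of_continuousOn (cq.mono hball)).isClosed
      have hsub : qq ξ '' U ⊆ qq ξ '' closedBall (0 : ℂ) ε :=
        image_mono fun z hz => by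
          rw [mem_closedBall_zero_iff]
          exact hz.2.le
      obtain ⟨z, hz, rfl⟩ := closure_minimal hsub hcomp hw
      rw [mem_closedBall_zero_iff] at hz
      have hz0 : 0 < ‖z‖ := by
        rw [norm_pos_iff]
        rintro rfl
        rw [q0, norm_zero] at hw0
        exact lt_irrefl _ hw0
      refine ⟨z, ⟨hz0, lt_of_le_of_ne hz ?_⟩, rfl⟩
      intro he
      exact absurd (hmin z he) (not_le.mpr hwm)
  intro z hz hz1
  have hzb : z ∈ ball (0 : ℂ) 1 := by
    rwa [mem_ball_zero_iff]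
  have hz0 : z ≠ 0 := norm_pos_iff.mp (hε.trans_le hz)
  have hq0 := (h2 z hzb hz0).2
  have hqpos : 0 < ‖qq ξ z‖ := norm_pos_iff.mpr hq0
  constructor
  · by_contra hcon
    obtain ⟨u, hu, hue⟩ := hT ⟨hqpos, not_le.mp hcon⟩
    have := inj (hU1 hu) hzb hue
    rw [this] at hu
    exact absurd hz (not_le.mpr hu.2)
  · by_contra hcon
    push Not at hcon
    have h3 : ‖(qq ξ z)⁻¹‖ < m := by
      rw [norm_inv]
      rw [inv_lt_comm₀ hqpos hm]
      rw [inv_lt_iff_one_lt_mul₀' hm]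
      exact hcon
    have h4 : 0 < ‖(qq ξ z)⁻¹‖ := norm_pos_iff.mpr (inv_ne_zero hq0)
    obtain ⟨u, hu, hue⟩ := hT ⟨h4, h3⟩
    apply prod z hzb u (hU1 hu)
    rw [hue, mul_inv_cancel₀ hq0]

end Pool.Agent.Lib.MP_7682a8_an.KB.H31
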